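import Pool.Agent.J6H99.NC.Stm2
import Pool.Agent.J6H99.NC.Flat

/-!
# No corners of the limit shape: geometry of tubes and strips (for CLGEO)
-/

set_option autoImplicit false

open MeasureTheory ProbabilityTheory Filter Topology
open scoped ENNReal

namespace Pool.Agent.J6H59.NC.ClG

open Pool.Agent.J6H99.NC

variable {e : ℕ} {q : Par} {F : Measure ℝ} [IsProbabilityMeasure F] {ι : Type} [Fintype ι]

lemma two_vec {c v u : E e} (hv : dt c v = 1) (hu : dt c u = 0) {α β r : ℝ}
    (h : nr (α • v + β • u) ≤ r) : |β| * nr u ≤ r * (1 + nr c * nr v) := by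
  have h1 : dt c (α • v + β • u) = α := by
    rw [dt_add, dt_smul, dt_smul, hv, hu]; ring
  have h2 := abs_dt_le c (α • v + β • u)
  rw [h1] at h2
  have hc := nr_nonneg c
  have hvn := nr_nonneg v
  have h3 : |α| ≤ nr c * r := h2.trans (mul_le_mul_of_nonneg_left h hc)
  have h4 : β • u = (α • v + β • u) - α • v := by abel
  have h5 : nr (β • u) ≤ nr (α • v + β • u) + nr (α • v) := by
    conv_lhs => rw [h4]
    exact nr_sub_le _ _
  rw [nr_smul, nr_smul] at h5
  have h6 : |α| * nr v ≤ nr c * r * nr v := mul_le_mul_of_nonneg_right h3 hvn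
  calc |β| * nr u ≤ r + nr c * r * nr v := by linarith
    _ = r * (1 + nr c * nr v) := by ring

lemma tube_near (D : Cor e q F ι) {l w : ℝ} {x : V e} (hx : x ∈ Tube D l w) :
    nr (vc x - lf D.chi x • D.v) ≤ w / D.c0 :=
  D.near_line (y := vc x) hx.2.2

lemma finite_n1 (N : ℤ) : {x : V e | n1 x ≤ N}.Finite := by
  refine (Set.finite_Icc (fun _ : Fin (e + 2) => -N) (fun _ => N)).subset ?_
  intro x hx
  have h : ∀ i, |x i| ≤ N := fun i => (coord_le_n1 x i).trans hx
  exact ⟨fun i => (abs_le.1 (h i)).1, fun i => (abs_le.1 (h i)).2⟩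

lemma tube_finite (D : Cor e q F ι) (l w : ℝ) : (Tube D l w).Finite := by
  refine (finite_n1 ⌈(|l| + |w|) * nr D.v + w / D.c0⌉).subset ?_
  intro x hx
  have h1 := tube_near D hx
  have h2 : (n1 x : ℝ) ≤ nr (lf D.chi x • D.v) + w / D.c0 := n1_le_nr h1
  rw [nr_smul] at h2
  have h3 : |lf D.chi x| ≤ |l| + |w| := by
    rw [abs_le]
    have a1 := neg_abs_le l
    have a2 := le_abs_self l
    have a3 := neg_abs_le w
    have a4 := le_abs_self w
    have a5 := abs_nonneg l
    have a6 := abs_nonneg w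
    constructor
    · have := hx.1; linarith
    · have := hx.2.1; linarith
  have h4 : |lf D.chi x| * nr D.v ≤ (|l| + |w|) * nr D.v :=
    mul_le_mul_of_nonneg_right h3 (nr_nonneg _)
  show n1 x ≤ _
  rw [← @Int.cast_le ℝ]
  refine le_trans ?_ (Int.le_ceil _)
  linarith

/-- the functional `f i` on a tube -/
lemma tube_lf (D : Cor e q F ι) (i : ι) {l w : ℝ} {x : V e} (hx : x ∈ Tube D l w) :
    lf (D.f i) x ≤ l + 2 * w := by
  have h1 := hx.2.1
  have h2 := hx.2.2 i
  linarith

/-- the functional on a strip -/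
lemma strip_lf {c v p : E e} (hv : dt c v = 1) (hp : dt c p = 0) {l r : ℝ} {y : V e}
    (hy : y ∈ Strip v p l r) : -(nr c * r) ≤ lf c y ∧ lf c y ≤ l + nr c * r := by
  obtain ⟨s, t, hs, hsl, ht, hr⟩ := hy
  have h1 := abs_dt_le c (vc y - s • v - t • p)
  rw [dt_sub, dt_sub, dt_smul, dt_smul, hv, hp, mul_zero, sub_zero, mul_one] at h1
  have h2 : nr c * nr (vc y - s • v - t • p) ≤ nr c * r :=
    mul_le_mul_of_nonneg_left hr (nr_nonneg _)
  have h3 := abs_le.1 (h1.trans h2)
  have h4 : lf c y = dt c (vc y) := rfl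
  rw [h4]
  constructor <;> linarith [h3.1, h3.2]

/-- two tubes started near `A v + b u`, `A v + b' u` are disjoint -/
lemma tube_tube (D : Cor e q F ι) (i : ι) {l w A b b' r : ℝ} {z z' x : V e}
    (hz : nr (vc z - (A • D.v + b • D.u i)) ≤ r) (hz' : nr (vc z' - (A • D.v + b' • D.u i)) ≤ r)
    (hx : x - z ∈ Tube D l w) (hx' : x - z' ∈ Tube D l w) :
    |b - b'| * nr (D.u i) ≤ (2 * (w / D.c0 + r)) * (1 + nr (D.f i) * nr D.v) := by
  have h1 := tube_near D hx
  have h2 := tube_near D hx'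
  rw [vc_sub] at h1 h2
  set α := lf D.chi (x - z) with hα
  set α' := lf D.chi (x - z') with hα'
  refine two_vec (α := α - α') (D.fv i) (D.fu i) ?_
  have h3 : (α - α') • D.v + (b - b') • D.u i =
      ((vc x - vc z' - α' • D.v) + (vc z' - (A • D.v + b' • D.u i))) -
      ((vc x - vc z - α • D.v) + (vc z - (A • D.v + b • D.u i))) := by
    rw [sub_smul, sub_smul]
    abel
  rw [h3]
  refine (nr_sub_le _ _).trans ?_
  have h4 := nr_add_le (vc x - vc z' - α' • D.v) (vc z' - (A • D.v + b' • D.u i))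
  have h5 := nr_add_le (vc x - vc z - α • D.v) (vc z - (A • D.v + b • D.u i))
  linarith

/-- a tube started near `A v + b u` and a strip in the direction `-u` started near `A v` -/
lemma tube_strip (D : Cor e q F ι) (i : ι) {l w A b r r' : ℝ} (hb : 0 ≤ b) {z z' x : V e}
    (hz : nr (vc z - (A • D.v + b • D.u i)) ≤ r) (hz' : nr (vc z' - A • D.v) ≤ r)
    (hx : x - z ∈ Tube D l w) (hx' : x - z' ∈ Strip D.v (-(D.u i)) l r') :
    b * nr (D.u i) ≤ (w / D.c0 + 2 * r + r') * (1 + nr (D.f i) * nr D.v) := by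
  have h1 := tube_near D hx
  obtain ⟨s, t, hs, hsl, ht, hr⟩ := hx'
  rw [vc_sub] at h1 hr
  set α := lf D.chi (x - z) with hα
  have h0 : |(-t) - b| * nr (D.u i) ≤ (w / D.c0 + 2 * r + r') * (1 + nr (D.f i) * nr D.v) := by
    refine two_vec (α := s - α) (D.fv i) (D.fu i) ?_
    have h3 : (s - α) • D.v + ((-t) - b) • D.u i =
        ((vc x - vc z - α • D.v) + (vc z - (A • D.v + b • D.u i))) -
        ((vc x - vc z' - s • D.v - t • (-(D.u i))) + (vc z' - A • D.v)) := by
      rw [sub_smul, sub_smul, neg_smul, smul_neg]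
      abel
    rw [h3]
    refine (nr_sub_le _ _).trans ?_
    have h4 := nr_add_le (vc x - vc z - α • D.v) (vc z - (A • D.v + b • D.u i))
    have h5 := nr_add_le (vc x - vc z' - s • D.v - t • (-(D.u i))) (vc z' - A • D.v)
    linarith
  refine le_trans ?_ h0
  refine mul_le_mul_of_nonneg_right ?_ (nr_nonneg _)
  rw [show (-t) - b = -(t + b) by ring, abs_neg]
  exact (le_abs_self _).trans' (by linarith)

/-- the passage time along a straight walk in the slab -/
lemma walk_up (q : Par) {c : E e} {w0 : V e} (hw : n1 w0 = 1) (ha : 0 < lf c w0) {x' : V e}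
    (hx : 0 ≤ lf c x') (n : ℕ) (ω : Om e) :
    X q ω (Slab c 0 (lf c (x' + (n : ℤ) • w0))) x' {x' + (n : ℤ) • w0} ≤
      ENNReal.ofReal (q.b * n) := by
  have hlev : ∀ j : ℕ, lf c (x' + (j : ℤ) • w0) = lf c x' + j * lf c w0 := by
    intro j
    rw [lf_add, lf_smul]
    push_cast
    ring
  have h1 := Ev_steps q ω (A := Slab c 0 (lf c (x' + (n : ℤ) • w0)))
    (fun j : ℕ => x' + (j : ℤ) • w0) n (fun j _ => ?_) (fun j hj => ?_)
  · simp only [Nat.cast_zero, zero_smul, add_zero] at h1
    exact X_le_of_Ev q (Set.mem_singleton _) h1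
  · have h2 := adj_step hw j
    rw [adj_iff] at h2 ⊢
    rwa [add_sub_add_left_eq_sub]
  · refine ⟨?_, x' + (j : ℤ) • w0, by simp, ?_⟩
    · intro v hv
      rw [Sym2.mem_iff] at hv
      rcases hv with rfl | rfl
      · show 0 ≤ lf c _
        rw [hlev]
        positivity
      · show 0 ≤ lf c _
        rw [hlev]
        positivity
    · rw [hlev, hlev]
      have : (j : ℝ) < n := by exact_mod_cast hj
      nlinarith

/-- translation of a passage time in a set -/
lemma lint_tr (q : Par) (F : Measure ℝ) [IsProbabilityMeasure F] (S : Set (V e)) (z y : V e) :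
    ∫⁻ ω, X q ω (EIn {x | x - z ∈ S}) z {z + y} ∂(PM e F) =
      ∫⁻ ω, X q ω (EIn S) 0 {y} ∂(PM e F) := by
  have h := lint_X_act q F (tr z) (A := EIn S) (B := EIn {x | x - z ∈ S}) (Y := {y})
    (Y' := {z + y}) (EIn_map (tr z) (fun v => by
      show v ∈ S ↔ tr z v - z ∈ S
      rw [tr_apply, add_sub_cancel_right])) (fun v => by
      simp only [Set.mem_singleton_iff, tr_apply]
      constructor
      · rintro rfl; exact add_comm _ _
      · intro h
        rw [add_comm z y] at h
        exact add_right_cancel h) 0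
  rw [tr_apply, zero_add] at h
  exact h

end Pool.Agent.J6H59.NC.ClG
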