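import Pool.Agent.J6H59.NC.ClG

/-!
# No corners of the limit shape: CLGEO, from the core inequality to the search events
-/

set_option autoImplicit false

open MeasureTheory ProbabilityTheory Filter Topology
open scoped ENNReal

namespace Pool.Agent.J6H59.NC

open Pool.Agent.J6H99.NC ClG

variable {e : ℕ} {q : Par} {F : Measure ℝ} [IsProbabilityMeasure F] {ι : Type} [Fintype ι]

lemma reach_ev (reach : ReachT) (hFa : FarB e q F) {c y : E e} (hdt : dt c y = 1) {γ : ℝ}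
    (hg : ∀ᶠ n : ℕ in atTop, g q F (rnd ((n : ℝ) • y)) ≤ n * γ) {δ B : ℝ} (hδ : 0 < δ)
    (hB : 1 ≤ B) :
    ∀ᶠ k : ℕ in atTop, ∃ z : V e, nr (vc z - (B * ((k : ℝ) + 1)) • y) ≤ (k : ℝ) + 1 ∧
      B * ((k : ℝ) + 1) ≤ lf c z ∧
      ∫⁻ ω, X q ω (Slab c 0 (B * ((k : ℝ) + 1))) 0 {z} ∂(PM e F) ≤
        ENNReal.ofReal (B * ((k : ℝ) + 1) * (γ + δ)) := by
  obtain ⟨C, hC, h⟩ := reach e q F hFa c y γ (by rw [hdt]; exact one_pos) hg
  obtain ⟨A0, h⟩ := h δ hδ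
  filter_upwards [eventually_ge_atTop ⌈max C A0⌉₊] with k hk
  have hk' : max C A0 ≤ k := Nat.ceil_le.1 hk
  have h1 : C ≤ k := (le_max_left _ _).trans hk'
  have h2 : A0 ≤ k := (le_max_right _ _).trans hk'
  have h3 : (0 : ℝ) ≤ k := Nat.cast_nonneg k
  have h4 : (k : ℝ) + 1 ≤ B * ((k : ℝ) + 1) := le_mul_of_one_le_left (by linarith) hB
  obtain ⟨z, hz1, hz2, hz3⟩ := h (B * ((k : ℝ) + 1)) (by linarith)
  rw [hdt, mul_one] at hz2 hz3
  exact ⟨z, by linarith, hz2, hz3⟩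

lemma ssf_one (hcore : CoreT) (ut : UT) (reach : ReachT) (D : Cor e q F ι) (hV : VarB e q F)
    (hFa : FarB e q F) {ε : ℝ} (hε : 0 < ε) (hε1 : ε ≤ 1) (i : ι) {W κ η : ℝ} (hW : 1 ≤ W)
    (hκ : 0 < κ) (_hκ1 : κ ≤ 1) (hη : 0 < η) (hη1 : η ≤ 1 / 2) :
    ∃ Cs : ℕ, ∀ l : ℕ, Cs ≤ kk D ε l →
      PM e F (SSf D i l (W * kk D ε l) (κ * kk D ε l)) ≤ ENNReal.ofReal η := by
  have hc0 : D.f i ≠ 0 := D.f_ne i
  obtain ⟨nc, hnc⟩ : ∃ nc, nc = nr (D.f i) := ⟨_, rfl⟩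
  obtain ⟨nv, hnv⟩ : ∃ nv, nv = nr D.v := ⟨_, rfl⟩
  obtain ⟨nu, hnu⟩ : ∃ nu, nu = nr (D.u i) := ⟨_, rfl⟩
  have nc0 : 0 ≤ nc := by rw [hnc]; exact nr_nonneg _
  have nv0 : 0 ≤ nv := by rw [hnv]; exact nr_nonneg _
  have nu0 : 0 < nu := by rw [hnu]; exact nr_pos (D.u_ne i)
  have c00 := D.c0_pos
  have hb0 : 0 ≤ q.b := q.ha.trans q.hab
  have he0 : (0 : ℝ) ≤ (e : ℝ) + 2 := by positivity
  have hp : ∀ t : ℝ, -(D.u i) ≠ t • D.v := by
    intro t ht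
    have h1 : dt (D.f i) (-(D.u i)) = 0 := by rw [dt_neg, D.fu i, neg_zero]
    rw [ht, dt_smul, D.fv i, mul_one] at h1
    rw [h1, zero_smul, neg_eq_zero] at ht
    exact D.u_ne i ht
  obtain ⟨CU, hCU, hU⟩ := ut e q F ι D ε hε (-(D.u i)) hp
  obtain ⟨w0, hw0, ha0⟩ := exists_dir hc0
  obtain ⟨a0, ha⟩ : ∃ a0, a0 = lf (D.f i) w0 := ⟨_, rfl⟩
  rw [← ha] at ha0
  obtain ⟨C7, hC7⟩ : ∃ C7, C7 = 2 * W + nc * (CU + 2) + 1 := ⟨_, rfl⟩
  have hC70 : 0 < C7 := by rw [hC7]; positivity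
  obtain ⟨B1, hB1⟩ : ∃ B1, B1 = (C7 + nc * ((e : ℝ) + 2)) / a0 := ⟨_, rfl⟩
  have hB10 : 0 ≤ B1 := by rw [hB1]; positivity
  obtain ⟨C6, hC6⟩ : ∃ C6, C6 = CU + q.b * (B1 + 1) := ⟨_, rfl⟩
  have hC60 : 0 < C6 := by rw [hC6]; positivity
  obtain ⟨Θ, hΘ⟩ : ∃ Θ, Θ = (2 * W / D.c0 + CU + 3) * (1 + nc * nv) := ⟨_, rfl⟩
  have hΘ0 : 0 < Θ := by rw [hΘ]; positivity
  obtain ⟨C4, hC4⟩ : ∃ C4, C4 = Θ / nu + nc * CU + nc * ((e : ℝ) + 2) + 1 := ⟨_, rfl⟩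
  have hC41 : 1 ≤ C4 := by
    rw [hC4]
    have : 0 ≤ Θ / nu + nc * CU + nc * ((e : ℝ) + 2) := by positivity
    linarith
  have hC40 : 0 < C4 := by linarith
  have hC4u : Θ < C4 * nu := by
    have h1 : Θ / nu < C4 := by
      rw [hC4]
      have : 0 ≤ nc * CU + nc * ((e : ℝ) + 2) := by positivity
      linarith
    rwa [div_lt_iff₀ nu0] at h1
  obtain ⟨M, hM⟩ := exists_pow_lt_of_lt_one (show 0 < min (1 / 2) (κ / (16 * (C6 + 1))) by positivity)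
    (show 1 - η < 1 by linarith)
  have hM1 : (1 - η) ^ M ≤ 1 / 2 := hM.le.trans (min_le_left _ _)
  have hM2 : (1 - η) ^ M ≤ κ / (16 * (C6 + 1)) := hM.le.trans (min_le_right _ _)
  have hM0 : M ≠ 0 := by
    rintro rfl
    norm_num at hM1
  have hMr : (1 : ℝ) ≤ M := by exact_mod_cast Nat.one_le_iff_ne_zero.2 hM0
  have hMp : (0 : ℝ) < M := by linarith
  obtain ⟨δ, hδ⟩ : ∃ δ, δ = κ / (16 * M * C4) := ⟨_, rfl⟩
  have hδ0 : 0 < δ := by rw [hδ]; positivity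
  obtain ⟨s0, hs0, htang⟩ := D.tang i δ hδ0
  obtain ⟨C5, hC5⟩ : ∃ C5, C5 = max 1 (1 / s0) := ⟨_, rfl⟩
  have hC51 : 1 ≤ C5 := by rw [hC5]; exact le_max_left _ _
  have hC5s : 1 / s0 ≤ C5 := by rw [hC5]; exact le_max_right _ _
  have hC50 : 0 < C5 := by linarith
  obtain ⟨B, hB⟩ : ∃ B, B = C5 * M * C4 := ⟨_, rfl⟩
  have hBC4 : C4 ≤ B := by
    rw [hB]
    have : 1 ≤ C5 * M := by nlinarith
    nlinarith
  have hB1' : 1 ≤ B := by linarith
  obtain ⟨δ', hδ'⟩ : ∃ δ', δ' = κ / (32 * B) := ⟨_, rfl⟩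
  have hδ'0 : 0 < δ' := by rw [hδ']; positivity
  obtain ⟨sj, hsj⟩ : ∃ sj : ℕ → ℝ, ∀ j, sj j = ((j : ℝ) + 1) / (C5 * M) := ⟨_, fun _ => rfl⟩
  have hsj0 : ∀ j, 0 < sj j := fun j => by rw [hsj]; positivity
  have hsj1 : ∀ j < M, sj j ≤ s0 := by
    intro j hj
    rw [hsj, div_le_iff₀ (by positivity)]
    have h1 : (j : ℝ) + 1 ≤ M := by exact_mod_cast hj
    have h2 : 1 ≤ s0 * C5 := by
      rw [div_le_iff₀ hs0] at hC5s
      linarith
    nlinarith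
  have hBs : ∀ j, B * sj j = ((j : ℝ) + 1) * C4 := by
    intro j
    rw [hsj, hB]
    field_simp
  have hev : ∀ᶠ k : ℕ in atTop, (∀ j ∈ Finset.range M, ∃ z : V e,
      nr (vc z - (B * ((k : ℝ) + 1)) • (D.v + sj j • D.u i)) ≤ (k : ℝ) + 1 ∧
      B * ((k : ℝ) + 1) ≤ lf (D.f i) z ∧
      ∫⁻ ω, X q ω (Slab (D.f i) 0 (B * ((k : ℝ) + 1))) 0 {z} ∂(PM e F) ≤
        ENNReal.ofReal (B * ((k : ℝ) + 1) * (1 + δ * sj j + δ'))) ∧
      (∃ z : V e, nr (vc z - (B * ((k : ℝ) + 1)) • D.v) ≤ (k : ℝ) + 1 ∧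
      B * ((k : ℝ) + 1) ≤ lf (D.f i) z ∧
      ∫⁻ ω, X q ω (Slab (D.f i) 0 (B * ((k : ℝ) + 1))) 0 {z} ∂(PM e F) ≤
        ENNReal.ofReal (B * ((k : ℝ) + 1) * (1 + δ' + δ'))) ∧ 1 ≤ k := by
    refine ((Filter.eventually_all_finset (Finset.range M)).2 fun j hj => ?_).and
      ((reach_ev reach hFa (D.fv i) (D.ub δ' hδ'0) hδ'0 hB1').and (eventually_ge_atTop 1))
    refine reach_ev reach hFa ?_ (htang (sj j) (hsj0 j) (hsj1 j (Finset.mem_range.1 hj))) hδ'0 hB1'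
    rw [dt_add, dt_smul, D.fv i, D.fu i, mul_zero, add_zero]
  obtain ⟨Cs, hCs⟩ := eventually_atTop.1 hev
  refine ⟨Cs, fun l hl => ?_⟩
  by_contra hP
  push Not at hP
  obtain ⟨hz, ⟨z', hz'1, hz'2, hz'3⟩, hk1⟩ := hCs _ hl
  choose! z hz using hz
  have hUk := hU l (kk D ε l) (kk_spec D hε1 l)
  obtain ⟨k, hk⟩ : ∃ k : ℝ, k = (kk D ε l : ℝ) := ⟨_, rfl⟩
  have hk1' : 1 ≤ k := by rw [hk]; exact_mod_cast hk1
  rw [← hk] at hP hz hz'1 hz'2 hz'3 hUk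
  obtain ⟨k1, hk1e⟩ : ∃ k1 : ℝ, k1 = k + 1 := ⟨_, rfl⟩
  rw [← hk1e] at hz hz'1 hz'2 hz'3 hUk
  have hk12 : k1 ≤ 2 * k := by linarith
  have hk11 : 1 ≤ k1 := by linarith
  have hk10 : 0 < k1 := by linarith
  have hkk1 : k ≤ k1 := by linarith
  obtain ⟨A, hA⟩ : ∃ A : ℝ, A = B * k1 := ⟨_, rfl⟩
  rw [← hA] at hz hz'1 hz'2 hz'3
  have hAC : C4 * k1 ≤ A := by rw [hA]; exact mul_le_mul_of_nonneg_right hBC4 hk10.le
  have hA0 : 0 ≤ A := le_trans (by positivity) hAC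
  have hl0 : (0 : ℝ) ≤ l := Nat.cast_nonneg l
  have hAs : ∀ j, A * sj j = ((j : ℝ) + 1) * C4 * k1 := by
    intro j
    rw [hA, mul_right_comm, hBs]
  have hAδ' : A * δ' = κ * k1 / 32 := by
    rw [hA, hδ']
    have : B ≠ 0 := by linarith
    field_simp
  -- the points z j
  have hz1 : ∀ j < M, nr (vc (z j) - (A • D.v + (((j : ℝ) + 1) * C4 * k1) • D.u i)) ≤ k1 := by
    intro j hj
    have h1 := (hz j (Finset.mem_range.2 hj)).1
    rwa [smul_add, smul_smul, hAs] at h1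
  have hz2 : ∀ j < M, A ≤ lf (D.f i) (z j) := fun j hj => (hz j (Finset.mem_range.2 hj)).2.1
  have hz3 : ∀ j < M, ∫⁻ ω, X q ω (Slab (D.f i) 0 A) 0 {z j} ∂(PM e F) ≤
      ENNReal.ofReal (A + κ * k / 4) := by
    intro j hj
    refine (hz j (Finset.mem_range.2 hj)).2.2.trans (ENNReal.ofReal_le_ofReal ?_)
    have h1 : (j : ℝ) + 1 ≤ M := by exact_mod_cast hj
    have h2 : A * (δ * sj j) ≤ κ * k1 / 16 := by
      have h3 : A * (δ * sj j) = δ * (((j : ℝ) + 1) * C4 * k1) := by rw [← hAs]; ring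
      rw [h3]
      have h4 : ((j : ℝ) + 1) * C4 * k1 ≤ M * C4 * k1 := by gcongr
      calc δ * (((j : ℝ) + 1) * C4 * k1) ≤ δ * (M * C4 * k1) :=
            mul_le_mul_of_nonneg_left h4 hδ0.le
        _ = κ * k1 / 16 := by rw [hδ]; field_simp
    have h5 : κ * k1 ≤ κ * (2 * k) := mul_le_mul_of_nonneg_left hk12 hκ.le
    have h6 : A * (1 + δ * sj j + δ') = A + A * (δ * sj j) + A * δ' := by ring
    rw [h6, hAδ']
    have h7 : 0 ≤ κ * k := by positivity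
    linarith
  have hz'4 : ∫⁻ ω, X q ω (Slab (D.f i) 0 A) 0 {z'} ∂(PM e F) ≤
      ENNReal.ofReal (A + κ * k / 4) := by
    refine hz'3.trans (ENNReal.ofReal_le_ofReal ?_)
    have h5 : κ * k1 ≤ κ * (2 * k) := mul_le_mul_of_nonneg_left hk12 hκ.le
    have h6 : A * (1 + δ' + δ') = A + A * δ' + A * δ' := by ring
    rw [h6, hAδ']
    have h7 : 0 ≤ κ * k := by positivity
    linarith
  -- levels
  have hlz : ∀ j < M, lf (D.f i) (z j) ≤ A + nc * k1 := by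
    intro j hj
    have h1 := abs_dt_le (D.f i) (vc (z j) - (A • D.v + (((j : ℝ) + 1) * C4 * k1) • D.u i))
    rw [dt_sub, dt_add, dt_smul, dt_smul, D.fv i, D.fu i, mul_zero, add_zero, mul_one, ← hnc] at h1
    have h2 := (abs_le.1 (h1.trans (mul_le_mul_of_nonneg_left (hz1 j hj) nc0))).2
    have h3 : lf (D.f i) (z j) = dt (D.f i) (vc (z j)) := rfl
    linarith
  have hlz' : lf (D.f i) z' ≤ A + nc * k1 := by
    have h1 := abs_dt_le (D.f i) (vc z' - A • D.v)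
    rw [dt_sub, dt_smul, D.fv i, mul_one, ← hnc] at h1
    have h2 := (abs_le.1 (h1.trans (mul_le_mul_of_nonneg_left hz'1 nc0))).2
    have h3 : lf (D.f i) z' = dt (D.f i) (vc z') := rfl
    linarith
  have hlr := abs_lf_rnd_sub (D.f i) ((l : ℝ) • D.v)
  rw [dt_smul, D.fv i, mul_one, ← hnc] at hlr
  have hlr1 := (abs_le.1 hlr).1
  obtain ⟨x', hx'⟩ : ∃ x' : V e, x' = z' + rnd ((l : ℝ) • D.v) := ⟨_, rfl⟩
  have hlx' : lf (D.f i) x' = lf (D.f i) z' + lf (D.f i) (rnd ((l : ℝ) • D.v)) := by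
    rw [hx', lf_add]
  have hee : nc * ((e : ℝ) + 2) ≤ nc * ((e : ℝ) + 2) * k1 :=
    le_mul_of_one_le_right (by positivity) hk11
  have hAee : nc * ((e : ℝ) + 2) * k1 ≤ A := by
    refine le_trans ?_ hAC
    refine mul_le_mul_of_nonneg_right ?_ hk10.le
    rw [hC4]
    have : 0 ≤ Θ / nu + nc * CU := by positivity
    linarith
  have hx'0 : 0 ≤ lf (D.f i) x' := by rw [hlx']; linarith
  obtain ⟨n, hn⟩ : ∃ n : ℕ, n = ⌈(C7 + nc * ((e : ℝ) + 2)) * k1 / a0⌉₊ := ⟨_, rfl⟩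
  have hn1 : (C7 + nc * ((e : ℝ) + 2)) * k1 ≤ n * a0 := by
    have := Nat.le_ceil ((C7 + nc * ((e : ℝ) + 2)) * k1 / a0)
    rw [← hn, div_le_iff₀ ha0] at this
    exact this
  have hn2 : (n : ℝ) ≤ (B1 + 1) * k1 := by
    have h1 : 0 ≤ (C7 + nc * ((e : ℝ) + 2)) * k1 / a0 := by positivity
    have := Nat.ceil_lt_add_one h1
    rw [← hn] at this
    have h2 : (C7 + nc * ((e : ℝ) + 2)) * k1 / a0 = B1 * k1 := by rw [hB1]; ring
    rw [h2] at this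
    linarith
  obtain ⟨y', hy'⟩ : ∃ y' : V e, y' = x' + (n : ℤ) • w0 := ⟨_, rfl⟩
  have hly' : A + l + C7 * k1 ≤ lf (D.f i) y' := by
    have h1 : lf (D.f i) y' = lf (D.f i) x' + n * a0 := by
      rw [hy', lf_add, lf_smul, ha]
      push_cast
      ring
    rw [h1, hlx']
    nlinarith
  have hWk : W * k ≤ W * k1 := mul_le_mul_of_nonneg_left hkk1 (by linarith)
  have hC7k : C7 * k1 = 2 * (W * k1) + nc * k1 * CU + 2 * (nc * k1) + k1 := by rw [hC7]; ring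
  have hnk : 0 ≤ nc * k1 := by positivity
  have hWk0 : 0 ≤ W * k1 := by positivity
  have hnkU : 0 ≤ nc * k1 * CU := by positivity
  have hUstrip : nc * (CU * k1) = nc * k1 * CU := by ring
  have hRlev : ∀ x ∈ {x : V e | x - z' ∈ Strip D.v (-(D.u i)) l (CU * k1)},
      0 ≤ lf (D.f i) x ∧ lf (D.f i) x < lf (D.f i) y' := by
    intro x hx
    have h1 := strip_lf (D.fv i) (show dt (D.f i) (-(D.u i)) = 0 by rw [dt_neg, D.fu i, neg_zero]) hx
    rw [lf_sub, ← hnc, hUstrip] at h1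
    have h2 : nc * k1 * CU ≤ A := by
      refine le_trans ?_ hAC
      have h3 : nc * CU ≤ C4 := by
        rw [hC4]
        have : 0 ≤ Θ / nu + nc * ((e : ℝ) + 2) := by positivity
        linarith
      calc nc * k1 * CU = nc * CU * k1 := by ring
        _ ≤ C4 * k1 := mul_le_mul_of_nonneg_right h3 hk10.le
    constructor
    · linarith [h1.1]
    · linarith [h1.2]
  have hWc : W * k / D.c0 ≤ W / D.c0 * k1 := by
    rw [mul_div_right_comm]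
    exact mul_le_mul_of_nonneg_left hkk1 (by positivity)
  have hnn : 0 < 1 + nc * nv := by positivity
  have hΘk : Θ * k1 < C4 * k1 * nu := by
    have := mul_lt_mul_of_pos_right hC4u hk10
    linarith
  have hdisj : ∀ i' < M, ∀ j < M, i' ≠ j → ∀ x, x - z i' ∈ Tube D l (W * k) →
      x - z j ∈ Tube D l (W * k) → False := by
    intro i' hi' j hj hij x hx1 hx2
    have h1 := tube_tube D i (hz1 i' hi') (hz1 j hj) hx1 hx2
    rw [← hnc, ← hnv, ← hnu] at h1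
    have h2 : C4 * k1 ≤ |((i' : ℝ) + 1) * C4 * k1 - ((j : ℝ) + 1) * C4 * k1| := by
      have h3 : ((i' : ℝ) + 1) * C4 * k1 - ((j : ℝ) + 1) * C4 * k1 =
          (((i' : ℤ) - (j : ℤ) : ℤ) : ℝ) * (C4 * k1) := by push_cast; ring
      rw [h3, abs_mul, abs_of_pos (show 0 < C4 * k1 by positivity)]
      refine le_mul_of_one_le_left (by positivity) ?_
      rw [← Int.cast_abs]
      have h4 : (1 : ℤ) ≤ |(i' : ℤ) - (j : ℤ)| := by
        apply Int.one_le_abs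
        omega
      exact_mod_cast h4
    have h5 : C4 * k1 * nu ≤ 2 * (W * k / D.c0 + k1) * (1 + nc * nv) :=
      (mul_le_mul_of_nonneg_right h2 nu0.le).trans h1
    have h6 : 2 * (W * k / D.c0 + k1) ≤ (2 * W / D.c0 + CU + 3) * k1 := by
      have : (2 * W / D.c0 + CU + 3) * k1 = 2 * (W / D.c0 * k1) + CU * k1 + 3 * k1 := by ring
      rw [this]
      have : 0 ≤ CU * k1 := by positivity
      linarith
    have h7 : 2 * (W * k / D.c0 + k1) * (1 + nc * nv) ≤ Θ * k1 := by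
      calc _ ≤ (2 * W / D.c0 + CU + 3) * k1 * (1 + nc * nv) :=
            mul_le_mul_of_nonneg_right h6 hnn.le
        _ = Θ * k1 := by rw [hΘ]; ring
    linarith
  have hstrip : ∀ x ∈ {x : V e | x - z' ∈ Strip D.v (-(D.u i)) l (CU * k1)}, ∀ j < M,
      x - z j ∉ Tube D l (W * k) := by
    intro x hx j hj hxj
    have h1 := tube_strip D i (b := ((j : ℝ) + 1) * C4 * k1) (by positivity) (hz1 j hj) hz'1 hxj hx
    rw [← hnc, ← hnv, ← hnu] at h1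
    have h2 : C4 * k1 ≤ ((j : ℝ) + 1) * C4 * k1 := by
      rw [mul_assoc]
      have : (0 : ℝ) ≤ j := Nat.cast_nonneg j
      exact le_mul_of_one_le_left (by positivity) (by linarith)
    have h5 : C4 * k1 * nu ≤ (W * k / D.c0 + 2 * k1 + CU * k1) * (1 + nc * nv) :=
      (mul_le_mul_of_nonneg_right h2 nu0.le).trans h1
    have h6 : W * k / D.c0 + 2 * k1 + CU * k1 ≤ (2 * W / D.c0 + CU + 3) * k1 := by
      have h8 : (2 * W / D.c0 + CU + 3) * k1 = 2 * (W / D.c0 * k1) + CU * k1 + 3 * k1 := by ring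
      rw [h8]
      have : 0 ≤ W / D.c0 * k1 := by positivity
      linarith
    have h7 : (W * k / D.c0 + 2 * k1 + CU * k1) * (1 + nc * nv) ≤ Θ * k1 := by
      calc _ ≤ (2 * W / D.c0 + CU + 3) * k1 * (1 + nc * nv) :=
            mul_le_mul_of_nonneg_right h6 hnn.le
        _ = Θ * k1 := by rw [hΘ]; ring
    linarith
  have hfin := hcore e q F hV hFa (D.f i) hc0 (D.lb i) (Tube D l (W * k))
    {x : V e | x - z' ∈ Strip D.v (-(D.u i)) l (CU * k1)} (κ * k) η A (κ * k / 4) (CU * k1)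
    (q.b * n) l M z z' x' y' (tube_finite D _ _) (by positivity) hη.le (by linarith) hA0 hl0
    (by positivity) (by positivity) (by positivity) hP.le hz2 hz3 hdisj
    (fun j hj x hx => by
      have h1 := tube_lf D i hx
      have h2 := hlz j hj
      linarith)
    (by
      have : 0 ≤ C7 * k1 := by positivity
      linarith) hz'4 (by
      rw [hx', lint_tr]
      refine hUk.trans (ENNReal.ofReal_le_ofReal le_rfl)) hRlev hstrip
    (fun ω => by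
      rw [hy']
      exact walk_up q hw0 (by rw [← ha]; exact ha0) hx'0 n ω)
  obtain ⟨ρ, hρ⟩ : ∃ ρ, ρ = (1 - η) ^ M := ⟨_, rfl⟩
  rw [← hρ] at hfin hM1 hM2
  have hρ0 : 0 ≤ ρ := by rw [hρ]; exact pow_nonneg (by linarith) _
  have hκk : 0 < κ * k := by positivity
  have hmm : CU * k1 + q.b * n ≤ C6 * k1 := by
    rw [hC6, add_mul, mul_assoc]
    have := mul_le_mul_of_nonneg_left hn2 hb0
    linarith
  have h1 : ρ * (CU * k1 + q.b * n) ≤ κ * k1 / 16 := by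
    calc ρ * (CU * k1 + q.b * n) ≤ ρ * (C6 * k1) := mul_le_mul_of_nonneg_left hmm hρ0
      _ ≤ κ / (16 * (C6 + 1)) * (C6 * k1) := mul_le_mul_of_nonneg_right hM2 (by positivity)
      _ ≤ κ / (16 * (C6 + 1)) * ((C6 + 1) * k1) := by gcongr; linarith
      _ = κ * k1 / 16 := by field_simp
  have h2 : κ * k1 ≤ κ * (2 * k) := mul_le_mul_of_nonneg_left hk12 hκ.le
  have h3 : ρ * (κ * k / 4) ≤ 1 / 2 * (κ * k / 4) := mul_le_mul_of_nonneg_right hM1 (by positivity)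
  have h4 : 1 / 2 * (κ * k - κ * k / 4) ≤ (1 - ρ) * (κ * k - κ * k / 4) :=
    mul_le_mul_of_nonneg_right (by linarith) (by linarith)
  have h5 : ρ * (κ * k / 4 + CU * k1 + q.b * n) = ρ * (κ * k / 4) + ρ * (CU * k1 + q.b * n) := by ring
  rw [h5] at hfin
  linarith

lemma SSf_mono (D : Cor e q F ι) (i : ι) {l w w' s s' : ℝ} (hw : w ≤ w') (hs : s' ≤ s) :
    SSf D i l w s ⊆ SSf D i l w' s' := by
  unfold SSf
  refine Set.iUnion_mono fun y => ?_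
  refine (Ev_mono_set q ?_ _ _ _).trans (Ev_mono q _ _ _ (by linarith))
  refine Set.inter_subset_inter_left _ (EIn_mono ?_)
  exact Set.inter_subset_inter_left _ (Set.inter_subset_inter_left _ (Tube_mono D hw))

theorem clgeo : ClGeoT := by
  intro hcore _ ut reach e q F _ ι _ D hV hFa ε hε hε1 i W κ η hW hκ hη
  obtain ⟨Cs, hCs⟩ := ssf_one hcore ut reach D hV hFa hε hε1 i (W := max W 1) (κ := min κ 1)
    (η := min η (1 / 2)) (le_max_right _ _) (lt_min hκ one_pos) (min_le_right _ _)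
    (lt_min hη (by norm_num)) (min_le_right _ _)
  refine ⟨Cs, fun l hl => ?_⟩
  have hk : (0 : ℝ) ≤ kk D ε l := Nat.cast_nonneg _
  refine ((measure_mono (SSf_mono D i (mul_le_mul_of_nonneg_right (le_max_left W 1) hk)
    (mul_le_mul_of_nonneg_right (min_le_left κ 1) hk))).trans (hCs l hl)).trans ?_
  exact ENNReal.ofReal_le_ofReal (min_le_left _ _)

end Pool.Agent.J6H59.NC
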