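import Pool.Agent.J6H99.NC.Stm

/-!
# Module GROW, part 1: cutting a walk at levels
-/

set_option autoImplicit false

open MeasureTheory ProbabilityTheory Filter Topology
open scoped ENNReal

namespace Pool.Agent.J6H59.NC

open Pool.Agent.J6H99.NC

variable {e : ℕ}

/-- the part of a walk up to the first vertex of level at least `B` -/
lemma first_hit (h : V e → ℝ) (s B : ℝ) (hs : ∀ v w, (lat e).Adj v w → h w ≤ h v + s)
    {x z : V e} (p : (lat e).Walk x z) (hx : h x ≤ B + s) (hz : B ≤ h z) :
    ∃ (y : V e) (p1 : (lat e).Walk x y) (p2 : (lat e).Walk y z), B ≤ h y ∧ h y ≤ B + s ∧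
      (∀ t ∈ p1.edges, ∃ v ∈ t, h v < B) ∧ (∀ v ∈ p1.support, h v ≤ B + s) ∧
      p.edges = p1.edges ++ p2.edges ∧ p1.support ⊆ p.support ∧ p2.support ⊆ p.support := by
  induction p with
  | @nil x =>
    refine ⟨x, SimpleGraph.Walk.nil, SimpleGraph.Walk.nil, hz, hx, by simp, ?_, by simp,
      by simp, by simp⟩
    intro v hv
    simp only [SimpleGraph.Walk.support_nil, List.mem_singleton] at hv
    rw [hv]; exact hx
  | @cons x y z hadj p ih =>
    by_cases hB : B ≤ h x
    · refine ⟨x, SimpleGraph.Walk.nil, SimpleGraph.Walk.cons hadj p, hB, hx, by simp, ?_,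
        by simp, ?_, List.Subset.refl _⟩
      · intro v hv
        simp only [SimpleGraph.Walk.support_nil, List.mem_singleton] at hv
        rw [hv]; exact hx
      · intro v hv
        simp only [SimpleGraph.Walk.support_nil, List.mem_singleton] at hv
        rw [hv]; exact SimpleGraph.Walk.start_mem_support _
    · push Not at hB
      have h1 := hs x y hadj
      obtain ⟨y', p1, p2, a1, a2, a3, a4, a5, a6, a7⟩ := ih (by linarith) hz
      refine ⟨y', SimpleGraph.Walk.cons hadj p1, p2, a1, a2, ?_, ?_, ?_, ?_, ?_⟩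
      · intro t ht
        rw [SimpleGraph.Walk.edges_cons, List.mem_cons] at ht
        rcases ht with rfl | ht
        · exact ⟨x, by simp, hB⟩
        · exact a3 t ht
      · intro v hv
        rw [SimpleGraph.Walk.support_cons, List.mem_cons] at hv
        rcases hv with rfl | hv
        · exact hx
        · exact a4 v hv
      · rw [SimpleGraph.Walk.edges_cons, SimpleGraph.Walk.edges_cons, a5, List.cons_append]
      · rw [SimpleGraph.Walk.support_cons, SimpleGraph.Walk.support_cons]
        exact List.cons_subset_cons _ a6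
      · rw [SimpleGraph.Walk.support_cons]
        exact List.Subset.trans a7 (List.subset_cons_self _ _)

/-- the part of a walk after the last vertex of level less than `A` -/
lemma last_below (h : V e → ℝ) (s A : ℝ) (hs : ∀ v w, (lat e).Adj v w → h w ≤ h v + s)
    {x z : V e} (p : (lat e).Walk x z) (hz : A ≤ h z) :
    (∀ v ∈ p.support, A ≤ h v) ∨
    ∃ (x' : V e) (p1 : (lat e).Walk x x') (p2 : (lat e).Walk x' z), h x' ≤ A + s ∧
      (∀ v ∈ p2.support, A ≤ h v) ∧ p.edges = p1.edges ++ p2.edges ∧
      p2.support ⊆ p.support := by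
  induction p with
  | @nil x =>
    left
    intro v hv
    simp only [SimpleGraph.Walk.support_nil, List.mem_singleton] at hv
    rw [hv]; exact hz
  | @cons x y z hadj p ih =>
    rcases ih hz with h1 | ⟨x', p1, p2, a1, a2, a3, a4⟩
    · by_cases hA : A ≤ h x
      · left
        intro v hv
        rw [SimpleGraph.Walk.support_cons, List.mem_cons] at hv
        rcases hv with rfl | hv
        · exact hA
        · exact h1 v hv
      · push Not at hA
        right
        refine ⟨y, SimpleGraph.Walk.cons hadj SimpleGraph.Walk.nil, p, ?_, h1, ?_, ?_⟩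
        · have := hs x y hadj
          linarith
        · simp
        · rw [SimpleGraph.Walk.support_cons]
          exact List.subset_cons_self _ _
    · right
      refine ⟨x', SimpleGraph.Walk.cons hadj p1, p2, a1, a2, ?_, ?_⟩
      · rw [SimpleGraph.Walk.edges_cons, SimpleGraph.Walk.edges_cons, a3, List.cons_append]
      · rw [SimpleGraph.Walk.support_cons]
        exact List.Subset.trans a4 (List.subset_cons_self _ _)

/-- a crossing of the block between the levels `A` and `B` -/
structure Crs (h : V e → ℝ) (s A B : ℝ) (R : Set (V e)) {x y : V e} (p : (lat e).Walk x y) :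
    Prop where
  hx : h x ≤ A + s
  hy : B ≤ h y
  edg : ∀ t ∈ p.edges, ∃ v ∈ t, h v < B
  lo : ∀ v ∈ p.support, A ≤ h v
  up : ∀ v ∈ p.support, h v ≤ B + s
  reg : ∀ v ∈ p.support, v ∈ R

lemma cost_le_of_edges (q : Par) (ω : Om e) {x y x' y' : V e} {p : (lat e).Walk x y}
    {p' : (lat e).Walk x' y'} {L L' : List (Sym2 (V e))}
    (h : p.edges = L ++ p'.edges ++ L') : cost q ω p' ≤ cost q ω p := by
  have h0 : ∀ L : List (Sym2 (V e)), 0 ≤ (L.map fun s => q.w (ω s)).sum := by
    intro L
    apply List.sum_nonneg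
    intro t ht
    obtain ⟨s, _, rfl⟩ := List.mem_map.1 ht
    exact q.w_nonneg _
  unfold cost
  rw [h, List.map_append, List.map_append, List.sum_append, List.sum_append]
  have h1 := h0 L
  have h2 := h0 L'
  linarith

/-- one block -/
lemma one_block (q : Par) (ω : Om e) (h : V e → ℝ) (s A B : ℝ)
    (hs : ∀ v w, (lat e).Adj v w → h w ≤ h v + s) (hAB : A ≤ B) (R : Set (V e))
    {x z : V e} (p : (lat e).Walk x z) (hR : ∀ v ∈ p.support, v ∈ R) (hx : h x ≤ A + s)
    (hz : B ≤ h z) :
    ∃ (x' y : V e) (p' : (lat e).Walk x' y) (p2 : (lat e).Walk y z), Crs h s A B R p' ∧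
      h y ≤ B + s ∧ (∀ v ∈ p2.support, v ∈ R) ∧ cost q ω p' + cost q ω p2 ≤ cost q ω p := by
  obtain ⟨y, p1, p2, a1, a2, a3, a4, a5, a6, a7⟩ := first_hit h s B hs p (by linarith) hz
  have hcost : cost q ω p1 + cost q ω p2 = cost q ω p := by
    unfold cost
    rw [a5, List.map_append, List.sum_append]
  rcases last_below h s A hs p1 (hAB.trans a1) with h1 | ⟨x', p11, p12, b1, b2, b3, b4⟩
  · exact ⟨x, y, p1, p2, ⟨hx, a1, a3, h1, a4, fun v hv => hR v (a6 hv)⟩, a2,
      fun v hv => hR v (a7 hv), hcost.le⟩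
  · refine ⟨x', y, p12, p2, ⟨b1, a1, ?_, b2, fun v hv => a4 v (b4 hv),
      fun v hv => hR v (a6 (b4 hv))⟩, a2, fun v hv => hR v (a7 hv), ?_⟩
    · intro t ht
      refine a3 t ?_
      rw [b3]
      exact List.mem_append_right _ ht
    · have h2 : cost q ω p12 ≤ cost q ω p1 :=
        cost_le_of_edges q ω (L := p11.edges) (L' := []) (by rw [b3, List.append_nil])
      linarith

/-- all blocks -/
lemma blocks (q : Par) (ω : Om e) (h : V e → ℝ) (s : ℝ) (lam : ℕ → ℝ)
    (hs : ∀ v w, (lat e).Adj v w → h w ≤ h v + s) (hmono : ∀ j, lam j ≤ lam (j + 1))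
    (R : Set (V e)) : ∀ (N j0 : ℕ) {x z : V e} (p : (lat e).Walk x z),
    (∀ v ∈ p.support, v ∈ R) → h x ≤ lam j0 + s → lam (j0 + N) ≤ h z →
    ∃ t : ℕ → ℝ, ∑ j ∈ Finset.range N, t (j0 + j) ≤ cost q ω p ∧ ∀ j < N,
      ∃ (x' y : V e) (p' : (lat e).Walk x' y), Crs h s (lam (j0 + j)) (lam (j0 + j + 1)) R p' ∧
        cost q ω p' ≤ t (j0 + j) := by
  intro N
  induction N with
  | zero =>
    intro j0 x z p _ _ _
    exact ⟨fun _ => 0, by simpa using cost_nonneg q ω p, fun j hj => absurd hj (by omega)⟩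
  | succ N ih =>
    intro j0 x z p hR hx hz
    have hm : ∀ i, lam (j0 + 1) ≤ lam (j0 + 1 + i) := by
      intro i
      induction i with
      | zero => exact le_rfl
      | succ i ih => exact ih.trans (hmono _)
    have hz1 : lam (j0 + 1) ≤ h z := by
      refine (hm N).trans ?_
      rw [show j0 + 1 + N = j0 + (N + 1) by omega]; exact hz
    obtain ⟨x', y, p', p2, c1, c2, c3, c4⟩ := one_block q ω h s (lam j0) (lam (j0 + 1)) hs
      (hmono j0) R p hR hx hz1
    obtain ⟨t, ht1, ht2⟩ := ih (j0 + 1) p2 c3 c2 (by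
      rw [show j0 + 1 + N = j0 + (N + 1) by omega]; exact hz)
    refine ⟨fun j => if j = j0 then cost q ω p' else t j, ?_, ?_⟩
    · rw [Finset.sum_range_succ']
      simp only [add_zero, if_true]
      have h1 : ∑ j ∈ Finset.range N, (if j0 + (j + 1) = j0 then cost q ω p' else t (j0 + (j + 1)))
          = ∑ j ∈ Finset.range N, t (j0 + 1 + j) := by
        refine Finset.sum_congr rfl fun j _ => ?_
        rw [if_neg (by omega), show j0 + (j + 1) = j0 + 1 + j by omega]
      rw [h1]
      linarith
    · intro j hj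
      rcases Nat.eq_zero_or_pos j with rfl | hj0
      · refine ⟨x', y, p', c1, ?_⟩
        simp
      · obtain ⟨j, rfl⟩ : ∃ i, j = i + 1 := ⟨j - 1, by omega⟩
        obtain ⟨x1, y1, p1, d1, d2⟩ := ht2 j (by omega)
        refine ⟨x1, y1, p1, ?_, ?_⟩
        · rw [show j0 + (j + 1) = j0 + 1 + j by omega]; exact d1
        · show cost q ω p1 ≤ if j0 + (j + 1) = j0 then cost q ω p' else t (j0 + (j + 1))
          rw [if_neg (by omega), show j0 + (j + 1) = j0 + 1 + j by omega]
          exact d2

end Pool.Agent.J6H59.NC
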