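import Pool.Agent.J6H59.NC.Cut

/-!
# Module GROW, part 2: one crossing of a block (deterministic part)
-/

set_option autoImplicit false

open MeasureTheory ProbabilityTheory Filter Topology
open scoped ENNReal

namespace Pool.Agent.J6H59.NC

open Pool.Agent.J6H99.NC

variable {e : ℕ} {q : Par} {F : Measure ℝ} [IsProbabilityMeasure F] {ι : Type} [Fintype ι]

/-- a constant which dominates everything -/
structure Hyp (D : Cor e q F ι) (H : ℝ) : Prop where
  one : 1 ≤ H
  b : q.b ≤ H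
  f : ∀ i, nr (D.f i) + nr D.chi ≤ H
  v : nr D.v ≤ H
  c : D.c0⁻¹ ≤ H
  e2 : (e : ℝ) + 2 ≤ H

lemma exists_Hyp (D : Cor e q F ι) : ∃ H : ℝ, Hyp D H := by
  refine ⟨1 + q.b + ∑ i, nr (D.f i) + nr D.chi + nr D.v + D.c0⁻¹ + ((e : ℝ) + 2), ?_⟩
  have h1 := q.hb
  have h2 : 0 ≤ ∑ i, nr (D.f i) := Finset.sum_nonneg fun i _ => nr_nonneg _
  have h3 := nr_nonneg D.chi
  have h4 := nr_nonneg D.v
  have h5 : 0 < D.c0⁻¹ := inv_pos.2 D.c0_pos
  have h6 : (0 : ℝ) ≤ e := Nat.cast_nonneg e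
  refine ⟨by linarith, by linarith, fun i => ?_, by linarith, by linarith, by linarith⟩
  have h7 : nr (D.f i) ≤ ∑ j, nr (D.f j) :=
    Finset.single_le_sum (f := fun j => nr (D.f j)) (fun j _ => nr_nonneg _) (Finset.mem_univ i)
  linarith

variable {D : Cor e q F ι} {H : ℝ}

lemma Hyp.pos (hH : Hyp D H) : 0 < H := by linarith [hH.one]

lemma Hyp.chi (hH : Hyp D H) : nr D.chi ≤ H := by
  obtain ⟨i, -⟩ := D.lat 0
  have := hH.f i
  have := nr_nonneg (D.f i)
  linarith

lemma Hyp.dchi (hH : Hyp D H) (y : E e) : |dt D.chi y| ≤ H * nr y :=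
  (abs_dt_le _ _).trans (mul_le_mul_of_nonneg_right hH.chi (nr_nonneg y))

lemma Hyp.df (hH : Hyp D H) (i : ι) (y : E e) : dt (D.f i) y - dt D.chi y ≤ H * nr y := by
  have h1 := abs_le.1 (abs_dt_le (D.f i) y)
  have h2 := abs_le.1 (abs_dt_le D.chi y)
  have h3 := mul_le_mul_of_nonneg_right (hH.f i) (nr_nonneg y)
  linarith

lemma Hyp.lchi (hH : Hyp D H) (y : V e) : |lf D.chi y| ≤ H * n1 y := by
  unfold lf; rw [← nr_vc]; exact hH.dchi _

lemma Hyp.lff (hH : Hyp D H) (i : ι) (y : V e) : lf (D.f i) y - lf D.chi y ≤ H * n1 y := by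
  unfold lf; rw [← nr_vc]; exact hH.df i _

lemma step_chi (D : Cor e q F ι) (v w : V e) (h : (lat e).Adj v w) :
    lf D.chi w ≤ lf D.chi v + nr D.chi := by
  have h1 := abs_le.1 (abs_lf_sub_le D.chi w v)
  have h2 : n1 (w - v) = 1 := by rw [n1_sub_comm]; exact h
  rw [h2] at h1
  push_cast at h1
  linarith

lemma tube_ball0 (hH : Hyp D H) {l t w : ℝ} (hl : 0 ≤ l) {z : V e} (hz : (n1 z : ℝ) ≤ t)
    (ht : H * t ≤ w) : z ∈ Tube D l w := by
  have h0 := mul_le_mul_of_nonneg_left hz hH.pos.le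
  have h1 := abs_le.1 (hH.lchi z)
  refine ⟨by linarith, by linarith, fun i => ?_⟩
  have := hH.lff i z
  linarith

lemma tube_ball1 (hH : Hyp D H) {l t w : ℝ} (hl : 0 ≤ l) {z : V e}
    (hz : nr (vc z - l • D.v) ≤ t) (ht : H * t ≤ w) : z ∈ Tube D l w := by
  have h0 := mul_le_mul_of_nonneg_left hz hH.pos.le
  have h1 := abs_le.1 (hH.dchi (vc z - l • D.v))
  have e1 : dt D.chi (vc z - l • D.v) = lf D.chi z - l := by
    rw [dt_sub, dt_smul, D.chi_v]; unfold lf; ring
  rw [e1] at h1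
  refine ⟨by linarith, by linarith, fun i => ?_⟩
  have h2 := hH.df i (vc z - l • D.v)
  have e2 : dt (D.f i) (vc z - l • D.v) = lf (D.f i) z - l := by
    rw [dt_sub, dt_smul, D.fv]; unfold lf; ring
  rw [e1, e2] at h2
  linarith

/-! ### search events at a point -/

lemma ss_of (D : Cor e q F ι) (i : ι) {ω : Om e} (c : V e) {x z : V e} {l W s : ℝ}
    (p : (lat e).Walk x z) (hp : ∀ v ∈ p.support, v - c ∈ Tube D l W)
    (hball : ∀ v, n1 (v - c) ≤ n1 (x - c) → v - c ∈ Tube D l W)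
    (hc : q.b * n1 (x - c) + cost q ω p ≤ lf (D.f i) (z - c) - s) :
    act (tr c) ω ∈ SSg D i l W s := by
  have h1 : ω ∈ Ev q (EIn {v | v - c ∈ Tube D l W}) c x (q.b * n1 (x - c)) :=
    Ev_ball q ω fun v hv => hball v hv
  have h2 : ω ∈ Ev q (EIn {v | v - c ∈ Tube D l W}) x z (cost q ω p) :=
    ⟨p, edges_EIn hp, le_rfl⟩
  have h3 := Ev_mono q _ _ _ hc (Ev_trans q h1 h2)
  have h4 := Ev_act q (tr c) (A := EIn (Tube D l W)) (B := EIn {v | v - c ∈ Tube D l W})
    (EIn_map (tr c) fun v => by simp) 0 (z - c) (lf (D.f i) (z - c) - s)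
  rw [tr_apply, tr_apply, zero_add, sub_add_cancel] at h4
  rw [← h4] at h3
  exact Set.mem_iUnion.2 ⟨z - c, h3⟩

lemma ssr_of (D : Cor e q F ι) (i : ι) {ω : Om e} (c : V e) {x z : V e} {l W s : ℝ}
    (p : (lat e).Walk x z) (hp : ∀ v ∈ p.support, c - v ∈ Tube D l W)
    (hball : ∀ v, n1 (v - c) ≤ n1 (x - c) → c - v ∈ Tube D l W)
    (hc : q.b * n1 (x - c) + cost q ω p ≤ lf (D.f i) (c - z) - s) :
    act (refl c) ω ∈ SSg D i l W s := by
  have h1 : ω ∈ Ev q (EIn {v | c - v ∈ Tube D l W}) c x (q.b * n1 (x - c)) :=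
    Ev_ball q ω fun v hv => hball v hv
  have h2 : ω ∈ Ev q (EIn {v | c - v ∈ Tube D l W}) x z (cost q ω p) :=
    ⟨p, edges_EIn hp, le_rfl⟩
  have h3 := Ev_mono q _ _ _ hc (Ev_trans q h1 h2)
  have h4 := Ev_act q (refl c) (A := EIn (Tube D l W)) (B := EIn {v | c - v ∈ Tube D l W})
    (EIn_map (refl c) fun v => by simp) 0 (c - z) (lf (D.f i) (c - z) - s)
  rw [refl_apply, refl_apply, sub_zero, sub_sub_cancel] at h4
  rw [← h4] at h3
  exact Set.mem_iUnion.2 ⟨c - z, h3⟩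

/-! ### good crossings -/

/-- a good crossing of the block of levels `[A, B)`, from the cell at `c` -/
def Gd (D : Cor e q F ι) (l k δ τ ρ A B : ℝ) (c : V e) : Set (Om e) :=
  ⋃ x : V e, ⋃ y : V e, {ω | (n1 (x - c) : ℝ) ≤ ρ ∧ nr (vc (y - c) - l • D.v) ≤ τ ∧
    ω ∈ Ev q (Slab D.chi A B ∩ EIn {z | z - c ∈ Tube D l (k / 2)}) x y (l + δ)}

lemma Gd_meas (D : Cor e q F ι) (l k δ τ ρ A B : ℝ) (c : V e) :
    MeasurableSet[MS (Slab D.chi A B)] (Gd D l k δ τ ρ A B c) := by
  unfold Gd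
  refine @MeasurableSet.iUnion _ _ (MS _) _ _ fun x => ?_
  refine @MeasurableSet.iUnion _ _ (MS _) _ _ fun y => ?_
  by_cases h : (n1 (x - c) : ℝ) ≤ ρ ∧ nr (vc (y - c) - l • D.v) ≤ τ
  · have : {ω : Om e | (n1 (x - c) : ℝ) ≤ ρ ∧ nr (vc (y - c) - l • D.v) ≤ τ ∧
        ω ∈ Ev q (Slab D.chi A B ∩ EIn {z | z - c ∈ Tube D l (k / 2)}) x y (l + δ)} =
        Ev q (Slab D.chi A B ∩ EIn {z | z - c ∈ Tube D l (k / 2)}) x y (l + δ) := by
      ext ω; simp [h.1, h.2]
    rw [this]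
    exact Ev_meas_MS q Set.inter_subset_left _ _ _
  · have : {ω : Om e | (n1 (x - c) : ℝ) ≤ ρ ∧ nr (vc (y - c) - l • D.v) ≤ τ ∧
        ω ∈ Ev q (Slab D.chi A B ∩ EIn {z | z - c ∈ Tube D l (k / 2)}) x y (l + δ)} = ∅ := by
      ext ω
      simp only [Set.mem_setOf_eq, Set.mem_empty_iff_false, iff_false]
      rintro ⟨h1, h2, _⟩
      exact h ⟨h1, h2⟩
    rw [this]
    exact @MeasurableSet.empty _ (MS _)

/-- the scale: `P = σ k` with `320 H ^ 3 σ = 1` -/
structure Scl (D : Cor e q F ι) (H k P : ℝ) : Prop where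
  hyp : Hyp D H
  P3 : 320 * (H ^ 3 * P) = k
  big : H ^ 2 ≤ P

namespace Scl

variable {k P : ℝ}

lemma P0 (h : Scl D H k P) : 1 ≤ P := by
  have h1 := h.hyp.one
  have h2 := h.big
  nlinarith

lemma P1 (h : Scl D H k P) : P ≤ H * P := by nlinarith [h.hyp.one, h.P0]

lemma P2 (h : Scl D H k P) : H * P ≤ H ^ 2 * P := by
  have := mul_le_mul_of_nonneg_left h.P1 h.hyp.pos.le
  calc H * P ≤ H * (H * P) := this
    _ = H ^ 2 * P := by ring

lemma P23 (h : Scl D H k P) : H ^ 2 * P ≤ H ^ 3 * P := by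
  have := mul_le_mul_of_nonneg_left h.P2 h.hyp.pos.le
  calc H ^ 2 * P = H * (H * P) := by ring
    _ ≤ H * (H ^ 2 * P) := this
    _ = H ^ 3 * P := by ring

lemma HP (h : Scl D H k P) : H ≤ P := by
  have h1 := h.hyp.one
  have h2 := h.big
  nlinarith

end Scl

/-- good crossings give the event `K` -/
lemma Gd_sub {k P l A B : ℝ} (h : Scl D H k P) (hl : 0 ≤ l) (c : V e) {ω : Om e}
    (hω : ω ∈ Gd D l k (40 * (H * P)) (50 * (H ^ 2 * P)) P A B c) :
    act (tr c) ω ∈ K D l (k - 1) := by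
  unfold Gd at hω
  simp only [Set.mem_iUnion, Set.mem_setOf_eq] at hω
  obtain ⟨x, y, h1, h2, h3⟩ := hω
  have hH := h.hyp
  have q0 := h.P0
  have q1 := h.P1
  have q2 := h.P2
  have q3 := h.P23
  have qk := h.P3
  have qb := h.big
  have qH := h.HP
  have hpos := hH.pos
  set R : Set (V e) := {z | z - c ∈ Tube D l (k - 1)} with hR
  -- the first part
  have hb1 : q.b * (n1 (x - c) : ℝ) ≤ H * P :=
    mul_le_mul hH.b h1 (by exact_mod_cast n1_nonneg _) hpos.le
  have e1 : ω ∈ Ev q (EIn R) c x (q.b * n1 (x - c)) := by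
    refine Ev_ball q ω fun z hz => ?_
    have hz' : (n1 (z - c) : ℝ) ≤ P := le_trans (by exact_mod_cast hz) h1
    exact tube_ball0 hH hl hz' (by linarith)
  -- the middle part
  have e2 : ω ∈ Ev q (EIn R) x y (l + 40 * (H * P)) := by
    refine Ev_mono_set q ?_ _ _ _ h3
    refine Set.inter_subset_right.trans (EIn_mono ?_)
    intro z hz
    exact Tube_mono D (by linarith) hz
  -- the last part
  have hd : (n1 (c + rnd (l • D.v) - y) : ℝ) ≤ 50 * (H ^ 2 * P) + H := by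
    rw [← nr_vc]
    have e3 : vc (c + rnd (l • D.v) - y) = (vc (rnd (l • D.v)) - l • D.v) +
        (l • D.v - vc (y - c)) := by
      rw [vc_sub, vc_add, vc_sub]; abel
    rw [e3]
    have h4 := nr_add_le (vc (rnd (l • D.v)) - l • D.v) (l • D.v - vc (y - c))
    rw [nr_sub_comm (l • D.v)] at h4
    have h5 := nr_rnd_sub (l • D.v)
    have h6 := hH.e2
    linarith
  have hb2 : q.b * (n1 (c + rnd (l • D.v) - y) : ℝ) ≤ 50 * (H ^ 3 * P) + P := by
    calc q.b * (n1 (c + rnd (l • D.v) - y) : ℝ) ≤ H * (50 * (H ^ 2 * P) + H) :=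
          mul_le_mul hH.b hd (by exact_mod_cast n1_nonneg _) hpos.le
      _ = 50 * (H ^ 3 * P) + H ^ 2 := by ring
      _ ≤ _ := by linarith
  have e3 : ω ∈ Ev q (EIn R) y (c + rnd (l • D.v)) (q.b * n1 (c + rnd (l • D.v) - y)) := by
    refine Ev_ball q ω fun z hz => ?_
    have hz' : (n1 (z - y) : ℝ) ≤ 50 * (H ^ 2 * P) + H := le_trans (by exact_mod_cast hz) hd
    have h4 : nr (vc (z - c) - l • D.v) ≤ 100 * (H ^ 2 * P) + H := by
      have e4 : vc (z - c) - l • D.v = vc (z - y) + (vc (y - c) - l • D.v) := by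
        rw [vc_sub, vc_sub, vc_sub]; abel
      rw [e4]
      have h5 := nr_add_le (vc (z - y)) (vc (y - c) - l • D.v)
      rw [nr_vc] at h5
      linarith
    refine tube_ball1 hH hl h4 ?_
    calc H * (100 * (H ^ 2 * P) + H) = 100 * (H ^ 3 * P) + H ^ 2 := by ring
      _ ≤ k - 1 := by linarith
  have e4 := Ev_trans q e1 (Ev_trans q e2 e3)
  have e5 : ω ∈ Ev q (EIn R) c (c + rnd (l • D.v)) (l + (k - 1)) :=
    Ev_mono q _ _ _ (by linarith) e4
  have h4 := Ev_act q (tr c) (A := EIn (Tube D l (k - 1))) (B := EIn R)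
    (EIn_map (tr c) fun v => by simp [hR]) 0 (rnd (l • D.v)) (l + (k - 1))
  rw [tr_apply, tr_apply, zero_add, add_comm (rnd (l • D.v)) c] at h4
  rw [← h4] at e5
  exact e5

/-- **One crossing.** -/
theorem crossing {k P l lp w W A : ℝ} (h : Scl D H k P) (hl : 0 ≤ lp) (hl1 : lp ≤ l)
    (hl2 : l - P ≤ lp) (hw : w + Fintype.card ι * w + k ≤ W)
    {R : Set (V e)} (hR : ∀ v ∈ R, ∀ i, lf (D.f i) v - lf D.chi v ≤ w)
    {ω : Om e} {x y : V e} (p : (lat e).Walk x y)
    (hp : Crs (lf D.chi) (nr D.chi) A (A + lp) R p) (c c' : V e) (hc : (n1 (x - c) : ℝ) ≤ P)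
    (hc' : (n1 (y - c') : ℝ) ≤ P) (hs : ∀ i, act (tr c) ω ∉ SSg D i l W P)
    (hs' : ∀ i, act (refl c') ω ∉ SSg D i l W P) :
    l - 5 * (H * P) ≤ cost q ω p ∧ (cost q ω p ≤ l + 40 * (H * P) →
      ω ∈ Gd D l k (40 * (H * P)) (50 * (H ^ 2 * P)) P A (A + lp) c) := by
  classical
  have hH := h.hyp
  have q0 := h.P0
  have q1 := h.P1
  have q2 := h.P2
  have q3 := h.P23
  have qk := h.P3
  have qb := h.big
  have qH := h.HP
  have hpos := hH.pos
  have hsH := hH.chi
  have hl0 : 0 ≤ l := hl.trans hl1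
  have hc0 := D.c0_pos
  -- levels of the end points and of the cell centres
  have hlow : ∀ v ∈ p.support, A ≤ lf D.chi v := hp.lo
  have hup : ∀ v ∈ p.support, lf D.chi v ≤ A + lp + nr D.chi := hp.up
  have hxs : x ∈ p.support := SimpleGraph.Walk.start_mem_support _
  have hys : y ∈ p.support := SimpleGraph.Walk.end_mem_support _
  have hHP : ∀ t : ℝ, t ≤ P → H * t ≤ H * P := fun t ht => mul_le_mul_of_nonneg_left ht hpos.le
  have hcx : |lf D.chi (x - c)| ≤ H * P := (hH.lchi _).trans (hHP _ hc)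
  have hcy : |lf D.chi (y - c')| ≤ H * P := (hH.lchi _).trans (hHP _ hc')
  rw [lf_sub] at hcx hcy
  have hcx' := abs_le.1 hcx
  have hcy' := abs_le.1 hcy
  have hx1 := hp.hx
  have hy1 := hp.hy
  have hx0 := hlow x hxs
  have hy2 := hup y hys
  -- lateral bounds
  have hlat : ∀ v ∈ p.support, ∀ i, lf (D.f i) v - lf D.chi v ≤ w :=
    fun v hv i => hR v (hp.reg v hv) i
  have hlatx : ∀ v ∈ p.support, ∀ i, -(Fintype.card ι * w) ≤ lf (D.f i) v - lf D.chi v :=
    fun v hv i => D.f_sub_chi_ge (y := vc v) (fun j => hlat v hv j) i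
  -- the tube of the forward events
  have hT1 : ∀ v ∈ p.support, v - c ∈ Tube D l W := by
    intro v hv
    have a1 := hlow v hv
    have a2 := hup v hv
    have hw0 : 0 ≤ w + Fintype.card ι * w := by
      obtain ⟨i, -⟩ := D.lat 0
      have b1 := hlat v hv i
      have b2 := hlatx v hv i
      linarith
    refine ⟨?_, ?_, fun i => ?_⟩
    · rw [lf_sub]; linarith
    · rw [lf_sub]; linarith
    · rw [lf_sub, lf_sub]
      have a3 := hlat v hv i
      have a4 := hlatx x hxs i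
      have a5 := hH.lff i (x - c)
      rw [lf_sub, lf_sub] at a5
      have a6 := hHP _ hc
      linarith
  have hw0 : 0 ≤ w + Fintype.card ι * w := by
    obtain ⟨i, -⟩ := D.lat 0
    have b1 := hlat x hxs i
    have b2 := hlatx x hxs i
    linarith
  have hB1 : ∀ v, n1 (v - c) ≤ n1 (x - c) → v - c ∈ Tube D l W := by
    intro v hv
    have hv' : (n1 (v - c) : ℝ) ≤ P := le_trans (by exact_mod_cast hv) hc
    exact tube_ball0 hH hl0 hv' (by linarith)
  have hT2 : ∀ v ∈ p.support, c' - v ∈ Tube D l W := by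
    intro v hv
    have a1 := hlow v hv
    have a2 := hup v hv
    refine ⟨?_, ?_, fun i => ?_⟩
    · rw [lf_sub]; linarith
    · rw [lf_sub]; linarith
    · rw [lf_sub, lf_sub]
      have a3 := hlatx v hv i
      have a4 := hlat y hys i
      have a5 := hH.lff i (c' - y)
      rw [lf_sub, lf_sub, n1_sub_comm] at a5
      have a6 := hHP _ hc'
      linarith
  have hB2 : ∀ v, n1 (v - c') ≤ n1 (y - c') → c' - v ∈ Tube D l W := by
    intro v hv
    have hv' : (n1 (c' - v) : ℝ) ≤ P := by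
      rw [n1_sub_comm]; exact le_trans (by exact_mod_cast hv) hc'
    exact tube_ball0 hH hl0 hv' (by linarith)
  have hbP : ∀ t : ℝ, 0 ≤ t → t ≤ P → q.b * t ≤ H * P := fun t h0 ht =>
    mul_le_mul hH.b ht h0 hpos.le
  -- the lower bounds for the parts
  have hfwd : ∀ (z : V e) (hz : z ∈ p.support) (i : ι),
      lf (D.f i) (z - c) - P - H * P < cost q ω (p.takeUntil z hz) := by
    intro z hz i
    by_contra hcon
    push Not at hcon
    refine hs i (ss_of D i c (p.takeUntil z hz) (fun v hv => hT1 v ?_) hB1 ?_)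
    · exact p.support_takeUntil_subset_support hz hv
    · have := hbP _ (by exact_mod_cast n1_nonneg (x - c)) hc
      linarith
  have hbwd : ∀ (z : V e) (hz : z ∈ p.support) (i : ι),
      lf (D.f i) (c' - z) - P - H * P < cost q ω (p.dropUntil z hz) := by
    intro z hz i
    by_contra hcon
    push Not at hcon
    refine hs' i (ssr_of D i c' (p.dropUntil z hz).reverse (fun v hv => hT2 v ?_) hB2 ?_)
    · rw [SimpleGraph.Walk.support_reverse, List.mem_reverse] at hv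
      exact p.support_dropUntil_subset_support hz hv
    · rw [cost_reverse]
      have := hbP _ (by exact_mod_cast n1_nonneg (y - c')) hc'
      linarith
  have hall : ∀ i : ι, lf (D.f i) (y - c) - P - H * P < cost q ω p := by
    intro i
    have h1 := hfwd y hys i
    have h2 : cost q ω (p.takeUntil y hys) ≤ cost q ω p := by
      have h3 : cost q ω p = cost q ω (p.takeUntil y hys) + cost q ω (p.dropUntil y hys) := by
        rw [← cost_append, p.take_spec hys]
      rw [h3]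
      linarith [cost_nonneg q ω (p.dropUntil y hys)]
    linarith
  obtain ⟨i, hi⟩ := D.lat (vc (y - c))
  change D.c0 * nr (vc (y - c) - dt D.chi (vc (y - c)) • D.v) ≤
    lf (D.f i) (y - c) - lf D.chi (y - c) at hi
  have hn0 := nr_nonneg (vc (y - c) - dt D.chi (vc (y - c)) • D.v)
  have hn1 : 0 ≤ D.c0 * nr (vc (y - c) - dt D.chi (vc (y - c)) • D.v) :=
    mul_nonneg hc0.le hn0
  have hai := hall i
  have hchiyc : l - 3 * (H * P) ≤ lf D.chi (y - c) := by
    rw [lf_sub]; linarith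
  have hchiyc' : lf D.chi (y - c) ≤ l + 3 * (H * P) := by
    rw [lf_sub]; linarith
  refine ⟨by linarith, fun hcost => ?_⟩
  -- the end point
  have hlat1 : nr (vc (y - c) - dt D.chi (vc (y - c)) • D.v) ≤ 45 * (H ^ 2 * P) := by
    have h1 : D.c0 * nr (vc (y - c) - dt D.chi (vc (y - c)) • D.v) ≤ 45 * (H * P) := by linarith
    have h2 : nr (vc (y - c) - dt D.chi (vc (y - c)) • D.v) =
        D.c0⁻¹ * (D.c0 * nr (vc (y - c) - dt D.chi (vc (y - c)) • D.v)) := by
      rw [← mul_assoc, inv_mul_cancel₀ hc0.ne', one_mul]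
    rw [h2]
    calc D.c0⁻¹ * (D.c0 * nr (vc (y - c) - dt D.chi (vc (y - c)) • D.v))
        ≤ H * (45 * (H * P)) := mul_le_mul hH.c h1 hn1 hpos.le
      _ = _ := by ring
  have hend : nr (vc (y - c) - l • D.v) ≤ 50 * (H ^ 2 * P) := by
    have e1 : vc (y - c) - l • D.v = (vc (y - c) - dt D.chi (vc (y - c)) • D.v) +
        (lf D.chi (y - c) - l) • D.v := by
      rw [sub_smul]; unfold lf; abel
    rw [e1]
    have h1 := nr_add_le (vc (y - c) - dt D.chi (vc (y - c)) • D.v)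
      ((lf D.chi (y - c) - l) • D.v)
    rw [nr_smul] at h1
    have h2 : |lf D.chi (y - c) - l| * nr D.v ≤ (3 * (H * P)) * H :=
      mul_le_mul (abs_le.2 ⟨by linarith, by linarith⟩) hH.v (nr_nonneg _) (by positivity)
    have h3 : (3 * (H * P)) * H = 3 * (H ^ 2 * P) := by ring
    linarith
  -- the crossing stays in the tube
  have hin : ∀ z ∈ p.support, z - c ∈ Tube D l (k / 2) := by
    intro z hz
    have a1 := hlow z hz
    have a2 := hup z hz
    refine ⟨?_, ?_, fun i => ?_⟩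
    · rw [lf_sub]; linarith
    · rw [lf_sub]; linarith
    · by_contra hcon
      push Not at hcon
      have b1 := hfwd z hz i
      obtain ⟨i', hi'⟩ := D.lat (vc (c' - z))
      change D.c0 * nr (vc (c' - z) - dt D.chi (vc (c' - z)) • D.v) ≤
        lf (D.f i') (c' - z) - lf D.chi (c' - z) at hi'
      have hn2 : 0 ≤ D.c0 * nr (vc (c' - z) - dt D.chi (vc (c' - z)) • D.v) :=
        mul_nonneg hc0.le (nr_nonneg _)
      have b2 := hbwd z hz i'
      have b3 : cost q ω p = cost q ω (p.takeUntil z hz) + cost q ω (p.dropUntil z hz) := by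
        rw [← cost_append, p.take_spec hz]
      have b4 : lf D.chi (z - c) + lf D.chi (c' - z) = lf D.chi (y - c) - (lf D.chi y - lf D.chi c') := by
        rw [lf_sub, lf_sub, lf_sub]; ring
      linarith
  unfold Gd
  simp only [Set.mem_iUnion, Set.mem_setOf_eq]
  refine ⟨x, y, hc, hend, p, ?_, hcost⟩
  intro t ht
  refine ⟨⟨fun v hv => hlow v (p.mem_support_of_mem_edges ht hv), hp.edg t ht⟩,
    fun v hv => hin v (p.mem_support_of_mem_edges ht hv)⟩

end Pool.Agent.J6H59.NC
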